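import Pool.Agent.Helper65.OH2.Goals
import Pool.Agent.Helper28.Ram.Par3
import Pool.Agent.Helper28.Few.Par
import Pool.Agent.Helper90.OH.OKS

/-!
# Packet OH2 PAR2: the parameters of the simulation of machines with one head, with free steps
-/

namespace Pool.Agent.Helper25.OH2

open Pool.Agent.Helper65.LinSpace Pool.Agent.Helper78.Mpc Pool.Agent.Helper28.Ram
open Pool.Agent.Helper65.OH Finset Filter
open Pool.Agent.Helper81.Tok2 (gH)

theorem PAR2 : Pool.Agent.Helper65.OH.PAR2_stmt := by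
  intro D C hD
  obtain ⟨k, hk⟩ := exists_nat_gt ((1536 * |C| * D ^ 2 + 100 * (D + 1) * |C| + 4) ^ 2)
  filter_upwards [ev_ll_ge k] with n hn x s h hs h1 h2
  have hC : C ≤ |C| := le_abs_self C
  have hC0 := abs_nonneg C
  have hD1 : (1 : ℝ) ≤ D := by exact_mod_cast hD
  have hl : ((ll n + h : ℕ) : ℝ) = (h : ℝ) + ((Nat.log 2 n : ℝ) + 1) := by
    unfold ll
    push_cast
    ring
  have hN : ((n : ℝ) + 1) ≤ (gH n h : ℝ) * gH n h * ((ll n + h : ℕ) : ℝ) := by
    exact_mod_cast Pool.Agent.Helper28.Few.lt_gH_sq n h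
  rw [← hl] at h1 h2
  have hLpos : 1 ≤ ll n + h := le_trans (ll_pos n) (Nat.le_add_right _ _)
  have hlk : (1536 * |C| * D ^ 2 + 100 * (D + 1) * |C| + 4) ^ 2 < ((ll n + h : ℕ) : ℝ) :=
    lt_of_lt_of_le hk (by exact_mod_cast hn.trans (Nat.le_add_right _ _))
  have hkap : (h + kap n) * D + 2 ≤ 12 * (D * (ll n + h)) := by
    unfold kap
    have hp := ll_pos n
    have h5 : (h + (4 * ll n + 6)) * D ≤ (10 * (ll n + h)) * D :=
      Nat.mul_le_mul_right _ (by omega)
    have h6 : 1 ≤ D * (ll n + h) := Nat.mul_pos hD hLpos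
    have h7 : (10 * (ll n + h)) * D = 10 * (D * (ll n + h)) := by ring
    omega
  set Ln : ℕ := ll n + h with hLn
  set L : ℝ := (Ln : ℝ) with hL
  have hl1 : (1 : ℝ) ≤ L := by
    rw [hL]
    exact_mod_cast hLpos
  have hl0 : (0 : ℝ) ≤ L := by linarith
  set g : ℝ := (gH n h : ℝ) with hg
  have hg1 : (1 : ℝ) ≤ g := by
    rw [hg]
    exact_mod_cast Pool.Agent.Helper28.Few.gH_pos n h
  set u : ℝ := Real.sqrt L with hu
  have hu0 : 0 ≤ u := Real.sqrt_nonneg _
  have huu : u * u = L := Real.mul_self_sqrt hl0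
  have hub : 1536 * |C| * D ^ 2 + 100 * (D + 1) * |C| + 4 < u := by
    rw [hu]
    exact Real.lt_sqrt_of_sq_lt hlk
  have hb1' : 0 ≤ 1536 * |C| * D ^ 2 := by positivity
  have hb2' : 0 ≤ 100 * (D + 1) * |C| := by positivity
  set v : ℝ := Real.sqrt ((n : ℝ) + 1) with hv
  have hn0 : (0 : ℝ) < (n : ℝ) + 1 := by positivity
  have hv0 : 0 ≤ v := Real.sqrt_nonneg _
  have hvv : v * v = (n : ℝ) + 1 := Real.mul_self_sqrt hn0.le
  have e1 : ((n : ℝ) + 1) ^ ((1 : ℝ) / 2) = v := by rw [hv, Real.sqrt_eq_rpow]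
  have hvg : v ≤ g * u := by
    have h3 : v * v ≤ (g * u) * (g * u) := by
      rw [hvv]
      calc (n : ℝ) + 1 ≤ g * g * L := hN
        _ = (g * u) * (g * u) := by rw [← huu]; ring
    exact abs_le_of_sq_le_sq' (by nlinarith) (by positivity) |>.2
  have hu4 : 4 < u := by linarith
  have hu1 : 0 < u := by linarith
  rw [e1] at h2
  have hs0 : (1 : ℝ) ≤ s := by exact_mod_cast hs
  have hspos : (0 : ℝ) < s := by linarith
  have hh0 : (0 : ℝ) ≤ h := Nat.cast_nonneg h
  -- the second hypothesis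
  have h4 : ((s : ℝ) + L) * ((h : ℝ) + 1) * u ≤ |C| * g := by
    have h6 : C * v ≤ |C| * (g * u) := mul_le_mul hC hvg hv0 hC0
    have h7 : (((s : ℝ) + L) * ((h : ℝ) + 1) * u) * u ≤ (|C| * g) * u := by
      calc _ = ((s : ℝ) + L) * ((h : ℝ) + 1) * (u * u) := by ring
        _ = ((s : ℝ) + L) * ((h : ℝ) + 1) * L := by rw [huu]
        _ ≤ |C| * (g * u) := h2.trans h6
        _ = _ := by ring
    exact le_of_mul_le_mul_right h7 hu1
  have hZ : (1 : ℝ) ≤ ((s : ℝ) + L) * ((h : ℝ) + 1) := by nlinarith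
  have hC1 : 0 < |C| := by
    rcases hC0.lt_or_eq with hlt | heq
    · exact hlt
    · rw [← heq, zero_mul] at h4
      have : 1 * u ≤ ((s : ℝ) + L) * ((h : ℝ) + 1) * u := mul_le_mul_of_nonneg_right hZ hu0
      linarith
  have h8 : 100 * (D + 1) * (((s : ℝ) + L) * ((h : ℝ) + 1)) ≤ g := by
    have h9 : ((s : ℝ) + L) * ((h : ℝ) + 1) * (100 * (D + 1) * |C|) ≤
        ((s : ℝ) + L) * ((h : ℝ) + 1) * u :=
      mul_le_mul_of_nonneg_left (by linarith) (by linarith)
    have h10 : |C| * (100 * (D + 1) * (((s : ℝ) + L) * ((h : ℝ) + 1))) ≤ |C| * g := by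
      calc |C| * (100 * (D + 1) * (((s : ℝ) + L) * ((h : ℝ) + 1)))
          = ((s : ℝ) + L) * ((h : ℝ) + 1) * (100 * (D + 1) * |C|) := by ring
        _ ≤ ((s : ℝ) + L) * ((h : ℝ) + 1) * u := h9
        _ ≤ |C| * g := h4
    exact le_of_mul_le_mul_left h10 hC1
  have h11 : 100 * (D + 1) * ((s + Ln) * (h + 1)) ≤ gH n h := by
    rw [hg, hL] at h8
    exact_mod_cast h8
  have hZn : s + Ln ≤ (s + Ln) * (h + 1) := Nat.le_mul_of_pos_right _ (Nat.succ_pos h)
  have hZh : (s + Ln) * h ≤ (s + Ln) * (h + 1) := Nat.mul_le_mul_left _ (Nat.le_succ h)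
  have hDZ : 12 * (D * (s + Ln)) ≤ 12 * (D * ((s + Ln) * (h + 1))) :=
    Nat.mul_le_mul_left _ (Nat.mul_le_mul_left _ hZn)
  have hDZh : 12 * (D * ((s + Ln) * h)) ≤ 12 * (D * ((s + Ln) * (h + 1))) :=
    Nat.mul_le_mul_left _ (Nat.mul_le_mul_left _ hZh)
  have hsum : s + (h + kap n) * D + 2 ≤ 12 * (D * (s + Ln)) := by
    have e2 : 12 * (D * (s + Ln)) = 12 * (D * s) + 12 * (D * Ln) := by ring
    have e3 : s ≤ D * s := Nat.le_mul_of_pos_left _ hD
    omega
  have h11' : 100 * (D * ((s + Ln) * (h + 1))) + 100 * ((s + Ln) * (h + 1)) ≤ gH n h := by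
    calc _ = 100 * (D + 1) * ((s + Ln) * (h + 1)) := by ring
      _ ≤ _ := h11
  have g1 : (s + (h + kap n) * D + 2) * h ≤ gH n h := by
    calc (s + (h + kap n) * D + 2) * h ≤ (12 * (D * (s + Ln))) * h :=
          Nat.mul_le_mul_right _ hsum
      _ = 12 * (D * ((s + Ln) * h)) := by ring
      _ ≤ gH n h := by omega
  have hσ : s + (h + kap n) * D + 1 ≤ gH n h := by omega
  have hgD : 100 * D ≤ gH n h := by
    have : D * 1 ≤ D * ((s + Ln) * (h + 1)) := Nat.mul_le_mul_left _ (by omega)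
    omega
  refine ⟨g1, hσ, ?_, ?_⟩
  · -- the running time is polynomial
    set E : ℝ := 1 / (D : ℝ) with hE
    have hE0 : 0 < E := by positivity
    have hE1 : E ≤ 1 := by
      rw [hE, div_le_one (by linarith)]
      exact hD1
    have a1 : (1 : ℝ) ≤ (s : ℝ) ^ (1 + E) := Real.one_le_rpow hs0 (by linarith)
    have a2 : (x : ℝ) ≤ (x : ℝ) * (s : ℝ) ^ (1 + E) :=
      le_mul_of_one_le_right (Nat.cast_nonneg _) a1
    have a3 : ((n : ℝ) + 1) ^ ((3 : ℝ) / 2 + E) ≤ ((n : ℝ) + 1) ^ (3 : ℝ) :=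
      Real.rpow_le_rpow_of_exponent_le (by linarith [Nat.cast_nonneg (α := ℝ) n]) (by linarith)
    have a4 : ((n : ℝ) + 1) ^ (3 : ℝ) = ((n : ℝ) + 1) ^ 3 := by
      rw [show (3 : ℝ) = ((3 : ℕ) : ℝ) by norm_num, Real.rpow_natCast]
    have a5 : |C| ≤ L ^ 4 := by
      have b1 : |C| ≤ u := by
        have : 1 * |C| ≤ 100 * (D + 1) * |C| :=
          mul_le_mul_of_nonneg_right (by linarith) hC0
        linarith
      have b2 : u ≤ L := by rw [← huu]; nlinarith
      have b3 : L ≤ L ^ 4 := le_self_pow₀ hl1 (by norm_num)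
      linarith
    have hL4 : 0 < L ^ 4 := by positivity
    have a6 : (x : ℝ) ≤ ((n : ℝ) + 1) ^ 3 := by
      have b1 : (x : ℝ) * L ^ 4 ≤ ((n : ℝ) + 1) ^ 3 * L ^ 4 := by
        calc (x : ℝ) * L ^ 4 ≤ (x : ℝ) * (s : ℝ) ^ (1 + E) * L ^ 4 :=
              mul_le_mul_of_nonneg_right a2 hL4.le
          _ ≤ C * ((n : ℝ) + 1) ^ ((3 : ℝ) / 2 + E) := h1
          _ ≤ L ^ 4 * ((n : ℝ) + 1) ^ (3 : ℝ) :=
              mul_le_mul (hC.trans a5) a3 (by positivity) (by positivity)
          _ = _ := by rw [a4]; ring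
      exact le_of_mul_le_mul_right b1 hL4
    have a7 : ((x : ℝ)) ≤ (((n + 1) ^ 3 : ℕ) : ℝ) := by
      push_cast
      exact a6
    have a8 : x ≤ (n + 1) ^ 3 := by exact_mod_cast a7
    calc x + 1 ≤ (n + 1) ^ 3 + 1 := by omega
      _ ≤ (n + 2) ^ 3 := by
          have : (n + 2) ^ 3 = (n + 1) ^ 3 + (3 * n ^ 2 + 9 * n + 7) := by ring
          omega
      _ ≤ (n + 2) ^ 4 := Nat.pow_le_pow_right (by omega) (by norm_num)
  · -- the main inequality
    have hE : 1 / (D : ℝ) = ((D : ℝ))⁻¹ := one_div _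
    rw [hE] at h1
    set E : ℝ := ((D : ℝ))⁻¹ with hEd
    have hE0 : 0 < E := by positivity
    have hE1 : E ≤ 1 := inv_le_one_of_one_le₀ hD1
    have hgpos : 1 ≤ gH n h := Pool.Agent.Helper28.Few.gH_pos n h
    have hgg : gH n h ≤ gH n h * gH n h := Nat.le_mul_of_pos_left _ hgpos
    obtain ⟨d1, -, d3⟩ := Pool.Agent.Helper90.OH.side_aux s D (gH n h * gH n h) hD (by omega)
    have hdd : ∑ j ∈ range (gH n h * gH n h), le01 ((s + 1) * (j + 1) ^ D) (gH n h * gH n h) =
      sd2 (gH n h) s D := rfl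
    rw [hdd] at d1 d3
    set d := sd2 (gH n h) s D with hd
    set σ := s + (h + kap n) * D + 1 with hσd
    set b := gH n h / σ with hb
    have hb1 : 1 ≤ b := by
      rw [hb, Nat.le_div_iff_mul_le (by omega)]
      omega
    have hgb : gH n h ≤ 2 * b * σ := by
      have h21 : gH n h < (b + 1) * σ := by
        have := Nat.lt_div_mul_add (a := gH n h) (b := σ) (by omega)
        rw [add_mul, one_mul]
        exact this
      have h22 : (b + 1) * σ ≤ (2 * b) * σ := Nat.mul_le_mul_right _ (by omega)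
      omega
    have hσM : σ ≤ s * (12 * (D * Ln)) := by
      have e3 : (h + kap n) * D ≤ s * ((h + kap n) * D) := Nat.le_mul_of_pos_left _ hs
      calc σ ≤ s * ((h + kap n) * D + 2) := by
            rw [hσd, mul_add]
            omega
        _ ≤ _ := Nat.mul_le_mul_left _ hkap
    -- real versions
    have hgbr : g ≤ 2 * b * (s * (12 * (D * (u * u)))) := by
      have : gH n h ≤ 2 * b * (s * (12 * (D * Ln))) :=
        hgb.trans (Nat.mul_le_mul_left _ hσM)
      rw [huu, hg, hL]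
      exact_mod_cast this
    have hdr : g * g < 2 * s * (2 * (d : ℝ)) ^ D := by
      have e2 : gH n h * gH n h < 2 * s * (2 * d) ^ D := by
        refine lt_of_lt_of_le d3 (Nat.mul_le_mul (by omega) (Nat.pow_le_pow_left (by omega) D))
      rw [hg]
      exact_mod_cast e2
    have hd0 : (1 : ℝ) ≤ d := by exact_mod_cast d1
    have hX : (g * g) ^ E ≤ 4 * d * (s : ℝ) ^ E := by
      have e2 : (g * g) ^ E ≤ (2 * s * (2 * (d : ℝ)) ^ D) ^ E :=
        Real.rpow_le_rpow (by positivity) hdr.le hE0.le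
      have e3 : (2 * s * (2 * (d : ℝ)) ^ D) ^ E = (2 : ℝ) ^ E * (s : ℝ) ^ E * (2 * d) := by
        rw [Real.mul_rpow (by positivity) (by positivity), Real.mul_rpow (by norm_num) hspos.le,
          hEd, Real.pow_rpow_inv_natCast (by positivity) (by omega)]
      have e4 : (2 : ℝ) ^ E ≤ 2 := by
        calc (2 : ℝ) ^ E ≤ (2 : ℝ) ^ (1 : ℝ) :=
              Real.rpow_le_rpow_of_exponent_le (by norm_num) hE1
          _ = 2 := Real.rpow_one 2
      rw [e3] at e2
      have hsE : 0 ≤ (s : ℝ) ^ E := by positivity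
      calc (g * g) ^ E ≤ (2 : ℝ) ^ E * (s : ℝ) ^ E * (2 * d) := e2
        _ ≤ 2 * (s : ℝ) ^ E * (2 * d) := by gcongr
        _ = _ := by ring
    have hnE : ((n : ℝ) + 1) ^ ((3 : ℝ) / 2 + E) ≤ v * v * v * ((g * g) ^ E * (u * u)) := by
      have e2 : ((n : ℝ) + 1) ^ ((3 : ℝ) / 2) = v * v * v := by
        have : (3 : ℝ) / 2 = 1 + 1 / 2 := by norm_num
        rw [this, Real.rpow_add hn0, Real.rpow_one, e1, hvv]
      have e3 : ((n : ℝ) + 1) ^ E ≤ (g * g) ^ E * (u * u) := by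
        calc ((n : ℝ) + 1) ^ E ≤ (g * g * L) ^ E := Real.rpow_le_rpow hn0.le hN hE0.le
          _ = (g * g) ^ E * L ^ E := Real.mul_rpow (by positivity) hl0
          _ ≤ (g * g) ^ E * (u * u) := by
            rw [huu]
            have : L ^ E ≤ L ^ (1 : ℝ) :=
              Real.rpow_le_rpow_of_exponent_le hl1 hE1
            rw [Real.rpow_one] at this
            gcongr
      rw [Real.rpow_add hn0, e2]
      gcongr
    have hsE : 0 < (s : ℝ) ^ E := by positivity
    -- the main chain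
    have m1 : (x : ℝ) * (s * (s : ℝ) ^ E) * (u * u) ^ 4 ≤
        |C| * ((g * u) * (g * u) * (g * u) * ((g * g) ^ E * (u * u))) := by
      have b1 : (x : ℝ) * (s * (s : ℝ) ^ E) * (u * u) ^ 4 ≤
          C * ((n : ℝ) + 1) ^ ((3 : ℝ) / 2 + E) := by
        rw [Real.rpow_add hspos, Real.rpow_one] at h1
        rw [huu]
        exact h1
      have b2 : v * v * v ≤ (g * u) * (g * u) * (g * u) :=
        mul_le_mul (mul_le_mul hvg hvg hv0 (by positivity)) hvg hv0 (by positivity)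
      calc _ ≤ C * ((n : ℝ) + 1) ^ ((3 : ℝ) / 2 + E) := b1
        _ ≤ |C| * (v * v * v * ((g * g) ^ E * (u * u))) :=
            mul_le_mul hC hnE (by positivity) hC0
        _ ≤ _ := by gcongr
    have m2 : (x : ℝ) * (s * (s : ℝ) ^ E) * (u * u * u) ≤ |C| * (g * g * g * (g * g) ^ E) := by
      have b1 : ((x : ℝ) * (s * (s : ℝ) ^ E) * (u * u * u)) * (u * u * u * u * u) ≤
          (|C| * (g * g * g * (g * g) ^ E)) * (u * u * u * u * u) := by
        calc _ = (x : ℝ) * (s * (s : ℝ) ^ E) * (u * u) ^ 4 := by ring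
          _ ≤ _ := m1
          _ = _ := by ring
      exact le_of_mul_le_mul_right b1 (by positivity)
    have m3 : (x : ℝ) * s * (u * u * u) ≤ 4 * |C| * (g * g * g) * d := by
      have b1 : ((x : ℝ) * s * (u * u * u)) * (s : ℝ) ^ E ≤
          (4 * |C| * (g * g * g) * d) * (s : ℝ) ^ E := by
        calc _ = (x : ℝ) * (s * (s : ℝ) ^ E) * (u * u * u) := by ring
          _ ≤ |C| * (g * g * g * (g * g) ^ E) := m2
          _ ≤ |C| * (g * g * g * (4 * d * (s : ℝ) ^ E)) := by gcongr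
          _ = _ := by ring
      exact le_of_mul_le_mul_right b1 hsE
    have m4 : (x : ℝ) * u ≤ 96 * |C| * D * (d * (g * (g * b))) := by
      have b1 : ((x : ℝ) * u) * (s * (u * u)) ≤
          (96 * |C| * D * (d * (g * (g * b)))) * (s * (u * u)) := by
        calc _ = (x : ℝ) * s * (u * u * u) := by ring
          _ ≤ 4 * |C| * (g * g * g) * d := m3
          _ ≤ 4 * |C| * (g * g * (2 * b * (s * (12 * (D * (u * u)))))) * d := by gcongr
          _ = _ := by ring
      exact le_of_mul_le_mul_right b1 (by positivity)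
    have hQ : (0 : ℝ) < d * (g * (g * b)) := by
      have : (1 : ℝ) ≤ b := by exact_mod_cast hb1
      positivity
    have m5 : (16 : ℝ) * (D * x) < d * (g * (g * b)) := by
      set Q : ℝ := d * (g * (g * b)) with hQd
      have b1 : (16 : ℝ) * (D * x) * u ≤ 1536 * |C| * D ^ 2 * Q := by
        calc (16 : ℝ) * (D * x) * u = 16 * D * (x * u) := by ring
          _ ≤ 16 * D * (96 * |C| * D * Q) := by gcongr
          _ = _ := by ring
      have b3 : (16 : ℝ) * (D * x) * (1536 * |C| * D ^ 2 + 1) ≤ (16 : ℝ) * (D * x) * u := by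
        have : 0 ≤ (16 : ℝ) * (D * x) := by positivity
        exact mul_le_mul_of_nonneg_left (by linarith) this
      by_contra hcon
      push Not at hcon
      have b4 : Q * (1536 * |C| * D ^ 2 + 1) ≤ (16 : ℝ) * (D * x) * (1536 * |C| * D ^ 2 + 1) :=
        mul_le_mul_of_nonneg_right hcon (by linarith)
      nlinarith
    have m6 : 16 * (D * x) < d * (gH n h * (gH n h * b)) := by
      rw [hg] at m5
      exact_mod_cast m5
    have q1 : gH n h ≤ gH n h * b := Nat.le_mul_of_pos_right _ hb1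
    have q2 : 100 * gH n h ≤ gH n h * (gH n h * b) := by
      calc 100 * gH n h ≤ gH n h * gH n h := Nat.mul_le_mul_right _ (by omega)
        _ ≤ _ := Nat.mul_le_mul_left _ q1
    have q3 : d * (100 * gH n h) ≤ d * (gH n h * (gH n h * b)) := Nat.mul_le_mul_left _ q2
    have q4 : d * (100 * gH n h) = 100 * (d * gH n h) := by ring
    have q5 : d ≤ d * gH n h := Nat.le_mul_of_pos_right _ hgpos
    have q6 : gH n h ≤ d * gH n h := Nat.le_mul_of_pos_left _ d1
    have q7 : 2 * D * (2 * x + 1) = 4 * (D * x) + 2 * D := by ring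
    rw [q7]
    omega

end Pool.Agent.Helper25.OH2
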